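import Pool.Agent.H85.SC.Targets

/-!
# Alternating sums over lacunary slots (helper29): modules ALT, ROO, EAP, FAP, EML of MP_de9001_an
-/

open Filter Topology

namespace Pool.Agent.H29.SC

open Pool.Agent.H85.SC Pool.Agent.H87.Synth

theorem sum_Ico_int {M : Type*} [AddCommMonoid M] (a : ℤ) (n : ℕ) (f : ℤ → M) :
    ∑ z ∈ Finset.Ico a (a + n), f z = ∑ j ∈ Finset.range n, f (a + j) := by
  symm
  apply Finset.sum_nbij' (fun j : ℕ => a + (j : ℤ)) (fun z => (z - a).toNat)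
  · intro j hj
    rw [Finset.mem_range] at hj
    rw [Finset.mem_Ico]
    omega
  · intro z hz
    rw [Finset.mem_Ico] at hz
    rw [Finset.mem_range]
    omega
  · intro j _
    omega
  · intro z hz
    rw [Finset.mem_Ico] at hz
    omega
  · intro j _
    rfl

theorem av_one (N : ℕ) (w : ℂ) (_hw : w ≠ 0) : av N (fun _ => 1) w =
    (1 / (N : ℂ)) * (w ^ N * ∑ j ∈ Finset.range N, w ^ j) := by
  unfold av
  congr 1
  have h1 : (2 * (N : ℤ)) = (N : ℤ) + (N : ℕ) := by ring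
  rw [h1, sum_Ico_int, Finset.mul_sum]
  apply Finset.sum_congr rfl
  intro j _
  rw [one_mul, ← Nat.cast_add, zpow_natCast, pow_add]

theorem ne_zero_of_norm {w : ℂ} (hw : ‖w‖ = 1) : w ≠ 0 := by
  intro h
  rw [h, norm_zero] at hw
  exact zero_ne_one hw

theorem norm_av_le_one {N : ℕ} (hN : 0 < N) {w : ℂ} (hw : ‖w‖ = 1) :
    ‖av N (fun _ => 1) w‖ ≤ 1 := by
  rw [av_one N w (ne_zero_of_norm hw), norm_mul, norm_mul, norm_pow, hw, one_pow, one_mul]
  have hN' : (0 : ℝ) < N := by exact_mod_cast hN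
  have h1 : ‖∑ j ∈ Finset.range N, w ^ j‖ ≤ N := by
    calc ‖∑ j ∈ Finset.range N, w ^ j‖ ≤ ∑ j ∈ Finset.range N, ‖w ^ j‖ := norm_sum_le _ _
      _ = N := by simp [norm_pow, hw]
  have h2 : ‖(1 / (N : ℂ))‖ = 1 / N := by
    rw [norm_div, norm_one, Complex.norm_natCast]
  rw [h2]
  calc 1 / (N : ℝ) * ‖∑ j ∈ Finset.range N, w ^ j‖ ≤ 1 / N * N := by gcongr
    _ = 1 := by field_simp

theorem norm_av_le {N : ℕ} (hN : 0 < N) {w : ℂ} (hw : ‖w‖ = 1) (hw1 : w ≠ 1) :
    ‖av N (fun _ => 1) w‖ ≤ 2 / ‖w - 1‖ * (N : ℝ)⁻¹ := by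
  rw [av_one N w (ne_zero_of_norm hw), norm_mul, norm_mul, norm_pow, hw, one_pow, one_mul,
    geom_sum_eq hw1]
  have hN' : (0 : ℝ) < N := by exact_mod_cast hN
  have hd : 0 < ‖w - 1‖ := norm_pos_iff.mpr (sub_ne_zero.mpr hw1)
  have h1 : ‖w ^ N - 1‖ ≤ 2 := by
    calc ‖w ^ N - 1‖ ≤ ‖w ^ N‖ + ‖(1 : ℂ)‖ := norm_sub_le _ _
      _ = 2 := by rw [norm_pow, hw, one_pow, norm_one]; norm_num
  have h2 : ‖(1 / (N : ℂ))‖ = (N : ℝ)⁻¹ := by
    rw [norm_div, norm_one, Complex.norm_natCast, one_div]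
  rw [h2, mul_comm, norm_div]
  gcongr

theorem norm_pow_sub_one {w : ℂ} (hw : ‖w‖ = 1) (n : ℕ) : ‖w ^ n - 1‖ ≤ n * ‖w - 1‖ := by
  induction n with
  | zero => simp
  | succ n ih =>
    have : w ^ (n + 1) - 1 = w * (w ^ n - 1) + (w - 1) := by ring
    rw [this]
    calc ‖w * (w ^ n - 1) + (w - 1)‖ ≤ ‖w * (w ^ n - 1)‖ + ‖w - 1‖ := norm_add_le _ _
      _ = ‖w ^ n - 1‖ + ‖w - 1‖ := by rw [norm_mul, hw, one_mul]
      _ ≤ n * ‖w - 1‖ + ‖w - 1‖ := by linarith
      _ = ((n + 1 : ℕ) : ℝ) * ‖w - 1‖ := by push_cast; ring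

theorem norm_av_sub {N : ℕ} (hN : 0 < N) {w : ℂ} (hw : ‖w‖ = 1) :
    ‖av N (fun _ => 1) w - 1‖ ≤ 2 * ‖w - 1‖ * N := by
  have hN' : (0 : ℝ) < N := by exact_mod_cast hN
  have hNc : (N : ℂ) ≠ 0 := by exact_mod_cast hN.ne'
  have h1 : av N (fun _ => 1) w - 1 =
      (1 / (N : ℂ)) * ∑ j ∈ Finset.range N, (w ^ (N + j) - 1) := by
    rw [av_one N w (ne_zero_of_norm hw), Finset.sum_sub_distrib, mul_sub]
    congr 1
    · rw [Finset.mul_sum]
      simp_rw [← pow_add]
    · simp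
      field_simp
  rw [h1, norm_mul]
  have h2 : ‖(1 / (N : ℂ))‖ = (N : ℝ)⁻¹ := by
    rw [norm_div, norm_one, Complex.norm_natCast, one_div]
  rw [h2]
  have h3 : ‖∑ j ∈ Finset.range N, (w ^ (N + j) - 1)‖ ≤ N * (2 * N * ‖w - 1‖) := by
    calc ‖∑ j ∈ Finset.range N, (w ^ (N + j) - 1)‖
        ≤ ∑ j ∈ Finset.range N, ‖w ^ (N + j) - 1‖ := norm_sum_le _ _
      _ ≤ ∑ _j ∈ Finset.range N, 2 * N * ‖w - 1‖ := by
          apply Finset.sum_le_sum
          intro j hj
          rw [Finset.mem_range] at hj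
          refine (norm_pow_sub_one hw _).trans ?_
          apply mul_le_mul_of_nonneg_right _ (norm_nonneg _)
          have : (j : ℝ) ≤ N := by exact_mod_cast hj.le
          push_cast
          linarith
      _ = N * (2 * N * ‖w - 1‖) := by simp
  calc (N : ℝ)⁻¹ * ‖∑ j ∈ Finset.range N, (w ^ (N + j) - 1)‖
      ≤ (N : ℝ)⁻¹ * (N * (2 * N * ‖w - 1‖)) := by gcongr
    _ = 2 * ‖w - 1‖ * N := by field_simp

theorem sum_N_le (N : ℕ → ℕ) (hN : ∀ a, 0 < N a ∧ 16 * N a ≤ N (a + 1)) (t : ℕ) :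
    ∑ a ∈ Finset.range (t + 1), (N a : ℝ) ≤ 16 / 15 * N t := by
  induction t with
  | zero =>
    rw [Finset.sum_range_one]
    have : (0 : ℝ) ≤ N 0 := by positivity
    linarith
  | succ t ih =>
    rw [Finset.sum_range_succ]
    have h1 : (16 : ℝ) * N t ≤ N (t + 1) := by exact_mod_cast (hN t).2
    linarith

theorem sum_inv_le (L : ℕ) : ∀ (N : ℕ → ℕ), (∀ a, 0 < N a ∧ 16 * N a ≤ N (a + 1)) →
    ∑ a ∈ Finset.range L, ((N a : ℝ))⁻¹ ≤ 16 / 15 * (N 0 : ℝ)⁻¹ := by
  induction L with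
  | zero =>
    intro N hN
    simp
  | succ L ih =>
    intro N hN
    rw [Finset.sum_range_succ']
    have h1 := ih (fun a => N (a + 1)) (fun a => hN (a + 1))
    have h0 : (0 : ℝ) < N 0 := by exact_mod_cast (hN 0).1
    have h2 : (16 : ℝ) * N 0 ≤ N (0 + 1) := by exact_mod_cast (hN 0).2
    have h3 : ((N (0 + 1) : ℝ))⁻¹ ≤ (16 * (N 0 : ℝ))⁻¹ := inv_anti₀ (by positivity) h2
    have h4 : (16 * (N 0 : ℝ))⁻¹ = (1 / 16) * (N 0 : ℝ)⁻¹ := by
      rw [mul_inv]; norm_num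
    rw [h4] at h3
    linarith

theorem alt_tail (N : ℕ → ℕ) (hN : ∀ a, 0 < N a ∧ 16 * N a ≤ N (a + 1)) {w : ℂ} (hw : ‖w‖ = 1)
    (hw1 : w ≠ 1) (L : ℕ) (s : ℕ → ℂ) (hs : ∀ a, ‖s a‖ = 1) :
    ‖∑ a ∈ Finset.range L, s a * av (N a) (fun _ => 1) w‖ ≤
      32 / 15 / (N 0 * ‖w - 1‖) := by
  have hd : 0 < ‖w - 1‖ := norm_pos_iff.mpr (sub_ne_zero.mpr hw1)
  have h0 : (0 : ℝ) < N 0 := by exact_mod_cast (hN 0).1
  calc ‖∑ a ∈ Finset.range L, s a * av (N a) (fun _ => 1) w‖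
      ≤ ∑ a ∈ Finset.range L, ‖s a * av (N a) (fun _ => 1) w‖ := norm_sum_le _ _
    _ ≤ ∑ a ∈ Finset.range L, 2 / ‖w - 1‖ * (N a : ℝ)⁻¹ := by
        apply Finset.sum_le_sum
        intro a _
        rw [norm_mul, hs, one_mul]
        exact norm_av_le (hN a).1 hw hw1
    _ = 2 / ‖w - 1‖ * ∑ a ∈ Finset.range L, (N a : ℝ)⁻¹ := by rw [Finset.mul_sum]
    _ ≤ 2 / ‖w - 1‖ * (16 / 15 * (N 0 : ℝ)⁻¹) := by
        gcongr
        exact sum_inv_le L N hN
    _ = 32 / 15 / (N 0 * ‖w - 1‖) := by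
        field_simp
        norm_num

theorem alt_sign (t : ℕ) : ‖∑ a ∈ Finset.range t, (-1 : ℂ) ^ a‖ ≤ 1 := by
  rw [neg_one_geom_sum]
  split_ifs <;> simp

theorem alt : T_ALT := by
  intro N hN w hw L
  have hsgn : ∀ a : ℕ, ‖(-1 : ℂ) ^ a‖ = 1 := fun a => by simp
  constructor
  · by_cases hw1 : w = 1
    · have h1 : ∀ a, av (N a) (fun _ => 1) w = 1 := by
        intro a
        have := norm_av_sub (hN a).1 hw
        rw [hw1, sub_self, norm_zero, mul_zero, zero_mul] at this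
        have h2 := norm_eq_zero.mp (le_antisymm this (norm_nonneg _))
        rw [hw1]
        exact sub_eq_zero.mp h2
      simp_rw [h1, mul_one]
      exact (alt_sign L).trans (by norm_num)
    · have hd : 0 < ‖w - 1‖ := norm_pos_iff.mpr (sub_ne_zero.mpr hw1)
      -- initial segment
      have hinit : ∀ t, (∀ a < t, (N a : ℝ) * ‖w - 1‖ ≤ 1) →
          ‖∑ a ∈ Finset.range t, (-1) ^ a * av (N a) (fun _ => 1) w‖ ≤ 1 + 32 / 15 := by
        intro t ht
        have h1 : ∑ a ∈ Finset.range t, (-1) ^ a * av (N a) (fun _ => 1) w =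
            ∑ a ∈ Finset.range t, (-1 : ℂ) ^ a +
              ∑ a ∈ Finset.range t, (-1) ^ a * (av (N a) (fun _ => 1) w - 1) := by
          rw [← Finset.sum_add_distrib]
          apply Finset.sum_congr rfl
          intro a _
          ring
        rw [h1]
        refine (norm_add_le _ _).trans (add_le_add (alt_sign t) ?_)
        rcases t with _ | t
        · simp; norm_num
        · calc ‖∑ a ∈ Finset.range (t + 1), (-1) ^ a * (av (N a) (fun _ => 1) w - 1)‖
              ≤ ∑ a ∈ Finset.range (t + 1), ‖(-1) ^ a * (av (N a) (fun _ => 1) w - 1)‖ :=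
                norm_sum_le _ _
            _ ≤ ∑ a ∈ Finset.range (t + 1), 2 * ‖w - 1‖ * N a := by
                apply Finset.sum_le_sum
                intro a _
                rw [norm_mul, hsgn, one_mul]
                exact norm_av_sub (hN a).1 hw
            _ = 2 * ‖w - 1‖ * ∑ a ∈ Finset.range (t + 1), (N a : ℝ) := by rw [Finset.mul_sum]
            _ ≤ 2 * ‖w - 1‖ * (16 / 15 * N t) := by
                gcongr
                exact sum_N_le N hN t
            _ = 32 / 15 * (N t * ‖w - 1‖) := by ring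
            _ ≤ 32 / 15 * 1 := by
                gcongr
                exact ht t (Nat.lt_succ_self t)
            _ = 32 / 15 := mul_one _
      by_cases hall : ∀ a < L, (N a : ℝ) * ‖w - 1‖ ≤ 1
      · exact (hinit L hall).trans (by norm_num)
      · push Not at hall
        classical
        set t := Nat.find hall with ht
        obtain ⟨htL, htN⟩ := Nat.find_spec hall
        have hmin : ∀ a < t, (N a : ℝ) * ‖w - 1‖ ≤ 1 := by
          intro a ha
          have h1 := Nat.find_min hall ha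
          push Not at h1
          exact h1 (by omega)
        obtain ⟨l, hl⟩ : ∃ l, L = t + l := ⟨L - t, by omega⟩
        rw [hl, Finset.sum_range_add]
        have h2 := alt_tail (fun a => N (t + a)) (fun a => by
          have := hN (t + a)
          rw [add_assoc] at this
          exact this) hw hw1 l (fun a => (-1) ^ (t + a)) (fun a => hsgn _)
        simp only [add_zero] at h2
        have h3 : 32 / 15 / (N t * ‖w - 1‖) ≤ 32 / 15 := by
          apply div_le_self (by norm_num)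
          exact htN.le
        have h4 := hinit t hmin
        refine (norm_add_le _ _).trans ?_
        linarith [h2.trans h3]
  · intro hw1
    have hd : 0 < ‖w - 1‖ := norm_pos_iff.mpr (sub_ne_zero.mpr hw1)
    have h0 : (0 : ℝ) < N 0 := by exact_mod_cast (hN 0).1
    refine (alt_tail N hN hw hw1 L (fun a => (-1) ^ a) hsgn).trans ?_
    gcongr
    norm_num

end Pool.Agent.H29.SC
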