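import Pool.Agent.H85.SC.Targets

/-!
# Counting points with given signs (helper29): module CNT of MP_de9001_an
-/

open Filter Topology

namespace Pool.Agent.H29.SC

open Pool.Agent.H85.SC Pool.Agent.H87.Synth

open Classical in
/-- number of `x < n` with `P x` -/
noncomputable def ct (P : ℕ → Prop) (n : ℕ) : ℕ := ((Finset.range n).filter P).card

theorem ct_mul {P Q : ℕ → Prop} {a b : ℕ} (ha : 0 < a) (hb : 0 < b) (hco : Nat.Coprime a b)
    (hP : ∀ x, P (x % a) ↔ P x) (hQ : ∀ x, Q (x % b) ↔ Q x) :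
    ct (fun x => P x ∧ Q x) (a * b) = ct P a * ct Q b := by
  classical
  unfold ct
  rw [← Finset.card_product]
  apply Finset.card_nbij (fun x => (x % a, x % b))
  · intro x hx
    simp only [Finset.coe_filter, Finset.mem_range, Set.mem_ofPred_eq, Finset.coe_product,
      Set.mem_prod] at hx ⊢
    exact ⟨⟨Nat.mod_lt _ ha, (hP x).mpr hx.2.1⟩, Nat.mod_lt _ hb, (hQ x).mpr hx.2.2⟩
  · intro x hx y hy h
    simp only [Finset.coe_filter, Finset.mem_range, Set.mem_ofPred_eq] at hx hy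
    simp only [Prod.mk.injEq] at h
    have h1 : x ≡ y [MOD a * b] := (Nat.modEq_and_modEq_iff_modEq_mul hco).mp ⟨h.1, h.2⟩
    rw [Nat.ModEq, Nat.mod_eq_of_lt hx.1, Nat.mod_eq_of_lt hy.1] at h1
    exact h1
  · rintro ⟨u, v⟩ h
    simp only [Finset.coe_product, Finset.coe_filter, Finset.mem_range, Set.mem_prod,
      Set.mem_ofPred_eq] at h
    obtain ⟨⟨hu, hPu⟩, hv, hQv⟩ := h
    have h1 := (Nat.chineseRemainder hco u v).2
    set z : ℕ := (Nat.chineseRemainder hco u v : ℕ) with hz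
    have hzl : z < a * b := Nat.chineseRemainder_lt_mul hco u v ha.ne' hb.ne'
    have h2 : z % a = u := by
      have := h1.1
      rw [Nat.ModEq, Nat.mod_eq_of_lt hu] at this
      exact this
    have h3 : z % b = v := by
      have := h1.2
      rw [Nat.ModEq, Nat.mod_eq_of_lt hv] at this
      exact this
    refine ⟨z, ?_, ?_⟩
    · simp only [Finset.coe_filter, Finset.mem_range, Set.mem_ofPred_eq]
      refine ⟨hzl, (hP z).mp ?_, (hQ z).mp ?_⟩
      · rw [h2]; exact hPu
      · rw [h3]; exact hQv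
    · simp only
      rw [h2, h3]

theorem ct_block {P : ℕ → Prop} {D : ℕ} (hP : ∀ x, P (x + D) ↔ P x) (q : ℕ) :
    ct P (q * D) = q * ct P D := by
  classical
  have hPq : ∀ q x, P (x + q * D) ↔ P x := by
    intro q
    induction q with
    | zero => intro x; simp
    | succ q ih =>
      intro x
      rw [show x + (q + 1) * D = (x + q * D) + D by ring, hP, ih]
  induction q with
  | zero => simp [ct]
  | succ q ih =>
    have h1 : ct P ((q + 1) * D) = ct P (q * D) + ct P D := by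
      unfold ct
      rw [show (q + 1) * D = q * D + D by ring]
      rw [Finset.range_eq_Ico, ← Finset.Ico_union_Ico_eq_Ico (Nat.zero_le (q * D))
        (Nat.le_add_right _ _), Finset.filter_union, Finset.card_union_of_disjoint,
        ← Finset.range_eq_Ico]
      · congr 1
        apply Finset.card_nbij' (fun x => x - q * D) (fun x => x + q * D)
        · intro x hx
          simp only [Finset.coe_filter, Finset.mem_Ico, Set.mem_ofPred_eq, Finset.mem_range] at hx ⊢
          refine ⟨by omega, ?_⟩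
          rw [← hPq q (x - q * D)]
          rw [Nat.sub_add_cancel hx.1.1]
          exact hx.2
        · intro x hx
          simp only [Finset.coe_filter, Finset.mem_Ico, Set.mem_ofPred_eq, Finset.mem_range] at hx ⊢
          exact ⟨by omega, (hPq q x).mpr hx.2⟩
        · intro x hx
          simp only [Finset.coe_filter, Finset.mem_Ico, Set.mem_ofPred_eq] at hx
          simp only
          omega
        · intro x hx
          simp
      · apply Finset.disjoint_filter_filter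
        exact Finset.Ico_disjoint_Ico_consecutive _ _ _
    rw [h1, ih]
    ring

theorem card_shift {Q : ℤ → Prop} [DecidablePred Q] {N D : ℕ} (hD : D ∣ N) (hQ : ∀ z, Q (z + D) ↔ Q z) :
    ((Finset.Ico (N : ℤ) (2 * N)).filter Q).card = N / D * ct (fun x => Q x) D := by
  obtain ⟨q, rfl⟩ := hD
  rcases Nat.eq_zero_or_pos D with h0 | h0
  · subst h0
    simp [ct]
  rw [Nat.mul_div_cancel_left q h0, mul_comm D q, ← ct_block (P := fun x : ℕ => Q x) (D := D)]
  · have hQq : ∀ q : ℕ, ∀ z, Q (z + (q * D : ℕ)) ↔ Q z := by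
      intro q
      induction q with
      | zero => intro z; simp
      | succ q ih =>
        intro z
        rw [show z + ((q + 1) * D : ℕ) = (z + (q * D : ℕ)) + D by push_cast; ring, hQ, ih]
    unfold ct
    symm
    apply Finset.card_nbij' (fun x : ℕ => ((x : ℤ) + (q * D : ℕ))) (fun z => (z - (q * D : ℕ)).toNat)
    · intro x hx
      simp only [Finset.coe_filter, Finset.mem_Ico, Set.mem_ofPred_eq, Finset.mem_range] at hx ⊢
      refine ⟨by omega, (hQq q x).mpr hx.2⟩
    · intro z hz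
      simp only [Finset.coe_filter, Finset.mem_Ico, Set.mem_ofPred_eq, Finset.mem_range] at hz ⊢
      have h1 : (((z - (q * D : ℕ)).toNat : ℕ) : ℤ) = z - (q * D : ℕ) :=
        Int.toNat_of_nonneg (by omega)
      refine ⟨by omega, ?_⟩
      rw [h1, ← hQq q]
      rw [sub_add_cancel]
      exact hz.2
    · intro x hx
      simp
    · intro z hz
      simp only [Finset.coe_filter, Finset.mem_Ico, Set.mem_ofPred_eq] at hz
      simp only
      have h1 : (((z - (q * D : ℕ)).toNat : ℕ) : ℤ) = z - (q * D : ℕ) :=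
        Int.toNat_of_nonneg (by omega)
      rw [h1]
      ring
  · intro x
    have := hQ x
    push_cast
    exact this

theorem leg_sum (p : ℕ) [Fact p.Prime] (hp : p ≠ 2) :
    ∑ x ∈ Finset.range p, legendreSym p x = 0 := by
  have h1 : ∑ x ∈ Finset.range p, legendreSym p x = ∑ y : ZMod p, quadraticChar (ZMod p) y := by
    apply Finset.sum_nbij' (fun x : ℕ => (x : ZMod p)) (fun y => y.val)
    · intro x _; simp
    · intro y _; rw [Finset.mem_range]; exact ZMod.val_lt y
    · intro x hx; rw [Finset.mem_range] at hx; exact ZMod.val_cast_of_lt hx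
    · intro y _; exact ZMod.natCast_zmod_val y
    · intro x _
      unfold legendreSym
      simp
  rw [h1]
  apply quadraticChar_sum_zero
  rw [ZMod.ringChar_zmod_n]
  exact hp

theorem leg_cases (p : ℕ) [Fact p.Prime] (z : ℤ) :
    legendreSym p z = 0 ∨ legendreSym p z = 1 ∨ legendreSym p z = -1 := by
  unfold legendreSym
  exact quadraticChar_isQuadratic (ZMod p) _

theorem ct_leg (p : ℕ) [Fact p.Prime] (hp : p ≠ 2) (e : ℤ) (he : e = 1 ∨ e = -1) :
    ct (fun x => legendreSym p x = e) p = (p - 1) / 2 := by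
  classical
  have hp0 : 0 < p := (Fact.out : p.Prime).pos
  have hzero : ∀ x ∈ Finset.range p, legendreSym p x = 0 ↔ x = 0 := by
    intro x hx
    rw [Finset.mem_range] at hx
    rw [legendreSym.eq_zero_iff]
    push_cast
    rw [ZMod.natCast_eq_zero_iff]
    constructor
    · intro h
      exact Nat.eq_zero_of_dvd_of_lt h hx
    · rintro rfl
      exact dvd_zero _
  have h1 : ∑ x ∈ Finset.range p, legendreSym p x =
      (ct (fun x => legendreSym p x = 1) p : ℤ) - ct (fun x => legendreSym p x = -1) p := by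
    unfold ct
    rw [Finset.card_filter, Finset.card_filter]
    push_cast
    rw [← Finset.sum_sub_distrib]
    apply Finset.sum_congr rfl
    intro x _
    rcases leg_cases p x with h | h | h <;> rw [h] <;> norm_num
  have h2 : (p : ℤ) = (ct (fun x => legendreSym p x = 1) p : ℤ) +
      ct (fun x => legendreSym p x = -1) p + 1 := by
    have h3 : ∀ x ∈ Finset.range p, (1 : ℤ) = (if legendreSym p x = 1 then 1 else 0) +
        (if legendreSym p x = -1 then 1 else 0) + (if x = 0 then 1 else 0) := by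
      intro x hx
      rcases leg_cases p x with h | h | h
      · have := (hzero x hx).mp h
        rw [h, if_pos this]
        norm_num
      · have : x ≠ 0 := fun h' => by
          rw [(hzero x hx).mpr h'] at h
          norm_num at h
        rw [h, if_neg this]
        norm_num
      · have : x ≠ 0 := fun h' => by
          rw [(hzero x hx).mpr h'] at h
          norm_num at h
        rw [h, if_neg this]
        norm_num
    have h4 := Finset.sum_congr (rfl : Finset.range p = Finset.range p) h3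
    rw [Finset.sum_add_distrib, Finset.sum_add_distrib,
      Finset.sum_ite_eq' (Finset.range p) 0 (fun _ => (1 : ℤ)),
      if_pos (Finset.mem_range.mpr hp0)] at h4
    unfold ct
    rw [Finset.card_filter, Finset.card_filter]
    push_cast
    rw [← h4]
    simp
  rw [leg_sum p hp] at h1
  rcases he with rfl | rfl <;> omega

theorem leg_mod (p : ℕ) [Fact p.Prime] (x : ℕ) :
    legendreSym p ((x % p : ℕ) : ℤ) = legendreSym p x := by
  rw [Int.natCast_mod]
  exact (legendreSym.mod p x).symm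


theorem leg_add (p : ℕ) [Fact p.Prime] (z : ℤ) (k : ℤ) :
    legendreSym p (z + p * k) = legendreSym p z := by
  rw [legendreSym.mod p (z + p * k), legendreSym.mod p z]
  congr 1
  rw [Int.add_mul_emod_self_left]

theorem coprime_pr {m j j' : ℕ} (h : j < j') : Nat.Coprime (pr m j) (pr m j') := by
  rw [Nat.coprime_primes (pr_prime m j) (pr_prime m j')]
  have h1 := pr_le m j
  have h2 := pr_gt m j'
  have h3 : 2 ^ (m + 3 + j) ≤ 2 ^ (m + 2 + j') := Nat.pow_le_pow_right (by norm_num) (by omega)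
  omega

theorem pr_odd (m j : ℕ) : pr m j ≠ 2 := by
  have h1 := pr_gt m j
  have h2 : 2 ^ 2 ≤ 2 ^ (m + 2 + j) := Nat.pow_le_pow_right (by norm_num) (by omega)
  omega

theorem coprime_four (m j s : ℕ) : Nat.Coprime (4 ^ s) (pr m j) := by
  apply Nat.Coprime.pow_left
  have : Nat.Coprime 2 (pr m j) := by
    rw [Nat.coprime_primes Nat.prime_two (pr_prime m j)]
    exact (pr_odd m j).symm
  rw [show (4 : ℕ) = 2 ^ 2 by norm_num]
  exact this.pow_left 2

theorem ct_dvd (A : ℕ) (hA : 0 < A) (c : ℤ) : ct (fun x => (A : ℤ) ∣ (x : ℤ) - c) A = 1 := by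
  classical
  unfold ct
  rw [Finset.card_eq_one]
  refine ⟨(c % A).toNat, ?_⟩
  have hA' : (0 : ℤ) < A := by exact_mod_cast hA
  have h0 : 0 ≤ c % A := Int.emod_nonneg _ hA'.ne'
  have h1 : c % A < A := Int.emod_lt_of_pos _ hA'
  ext x
  simp only [Finset.mem_filter, Finset.mem_range, Finset.mem_singleton]
  constructor
  · rintro ⟨hx, hd⟩
    have h2 : (x : ℤ) % A = c % A := ((Int.emod_eq_emod_iff_emod_sub_eq_zero).mpr (Int.emod_eq_zero_of_dvd hd))
    have h3 : (x : ℤ) % A = x := Int.emod_eq_of_lt (by omega) (by omega)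
    omega
  · rintro rfl
    have h2 : (((c % A).toNat : ℕ) : ℤ) = c % A := Int.toNat_of_nonneg h0
    refine ⟨by omega, ?_⟩
    rw [h2]
    have := Int.emod_add_mul_ediv c A
    exact ⟨-(c / A), by linarith⟩


theorem ct_congr {P Q : ℕ → Prop} (n : ℕ) (h : ∀ x, P x ↔ Q x) : ct P n = ct Q n := by
  have : P = Q := by funext x; exact propext (h x)
  rw [this]

/-- counting one pattern over a period -/
theorem ct_pat (m s : ℕ) (c : ℤ) (e0 e1 e2 : ℤ) (h0 : e0 = 1 ∨ e0 = -1) (h1 : e1 = 1 ∨ e1 = -1)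
    (h2 : e2 = 1 ∨ e2 = -1) :
    ct (fun x => (4 : ℤ) ^ s ∣ (x : ℤ) - c ∧ chi m 0 x = e0 ∧ chi m 1 x = e1 ∧ chi m 2 x = e2)
      (4 ^ s * PP m) =
      (pr m 0 - 1) / 2 * ((pr m 1 - 1) / 2) * ((pr m 2 - 1) / 2) := by
  have hp : ∀ j, 0 < pr m j := fun j => (pr_prime m j).pos
  have hleg : ∀ j (e : ℤ) (x : ℕ), chi m j ((x % pr m j : ℕ) : ℤ) = e ↔ chi m j x = e := by
    intro j e x
    unfold chi
    rw [leg_mod]
  have hf : ∀ x : ℕ, (4 : ℤ) ^ s ∣ ((x % 4 ^ s : ℕ) : ℤ) - c ↔ (4 : ℤ) ^ s ∣ (x : ℤ) - c := by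
    intro x
    have h3 : (4 : ℤ) ^ s ∣ (x : ℤ) - ((x % 4 ^ s : ℕ) : ℤ) := by
      have h4 := Nat.mod_add_div x (4 ^ s)
      refine ⟨((x / 4 ^ s : ℕ) : ℤ), ?_⟩
      have h5 : ((x % 4 ^ s : ℕ) : ℤ) + (4 : ℤ) ^ s * ((x / 4 ^ s : ℕ) : ℤ) = x := by
        exact_mod_cast h4
      linarith
    constructor
    · intro h
      have := dvd_add h h3
      rwa [show ((x % 4 ^ s : ℕ) : ℤ) - c + ((x : ℤ) - ((x % 4 ^ s : ℕ) : ℤ)) = x - c by ring] at this
    · intro h
      have := dvd_sub h h3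
      rwa [show (x : ℤ) - c - ((x : ℤ) - ((x % 4 ^ s : ℕ) : ℤ)) = ((x % 4 ^ s : ℕ) : ℤ) - c by ring]
        at this
  -- periodicity for composite moduli
  have hmm : ∀ (a b x : ℕ), x % (a * b) % b = x % b := fun a b x =>
    Nat.mod_mod_of_dvd x (Dvd.intro_left a rfl)
  have hmm' : ∀ (a b x : ℕ), x % (a * b) % a = x % a := fun a b x =>
    Nat.mod_mod_of_dvd x (Dvd.intro b rfl)
  have e1' : ct (fun x => (chi m 0 x = e0 ∧ chi m 1 x = e1) ∧ chi m 2 x = e2) (PP m) =
      (pr m 0 - 1) / 2 * ((pr m 1 - 1) / 2) * ((pr m 2 - 1) / 2) := by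
    unfold PP
    rw [ct_mul (P := fun x : ℕ => chi m 0 x = e0 ∧ chi m 1 x = e1) (Q := fun x : ℕ => chi m 2 x = e2)
      (Nat.mul_pos (hp 0) (hp 1)) (hp 2) (Nat.Coprime.mul_left (coprime_pr (by norm_num))
        (coprime_pr (by norm_num))) (by
        intro x
        rw [← hleg 0 e0 (x % (pr m 0 * pr m 1)), hmm', hleg, ← hleg 1 e1 (x % (pr m 0 * pr m 1)),
          hmm, hleg]) (hleg 2 e2),
      ct_mul (P := fun x : ℕ => chi m 0 x = e0) (Q := fun x : ℕ => chi m 1 x = e1) (hp 0) (hp 1)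
        (coprime_pr (by norm_num)) (hleg 0 e0) (hleg 1 e1)]
    have k0 := ct_leg (pr m 0) (pr_odd m 0) e0 h0
    have k1 := ct_leg (pr m 1) (pr_odd m 1) e1 h1
    have k2 := ct_leg (pr m 2) (pr_odd m 2) e2 h2
    unfold chi
    rw [k0, k1, k2]
  have e2' : ct (fun x => (4 : ℤ) ^ s ∣ (x : ℤ) - c) (4 ^ s) = 1 := by
    have := ct_dvd (4 ^ s) (by positivity) c
    push_cast at this
    exact this
  have hPP : 0 < PP m := Nat.mul_pos (Nat.mul_pos (hp 0) (hp 1)) (hp 2)
  rw [ct_congr (Q := fun x : ℕ => (4 : ℤ) ^ s ∣ (x : ℤ) - c ∧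
      ((chi m 0 x = e0 ∧ chi m 1 x = e1) ∧ chi m 2 x = e2)) _ (fun x => by tauto),
    ct_mul (P := fun x : ℕ => (4 : ℤ) ^ s ∣ (x : ℤ) - c)
      (Q := fun x : ℕ => (chi m 0 x = e0 ∧ chi m 1 x = e1) ∧ chi m 2 x = e2)
      (by positivity) hPP _ hf _, e1', e2', one_mul]
  · unfold PP
    exact Nat.Coprime.mul_right (Nat.Coprime.mul_right (coprime_four m 0 s) (coprime_four m 1 s))
      (coprime_four m 2 s)
  · intro x
    have q0 : x % PP m % pr m 0 = x % pr m 0 := by
      apply Nat.mod_mod_of_dvd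
      unfold PP
      exact Dvd.dvd.mul_right (Dvd.intro _ rfl) _
    have q1 : x % PP m % pr m 1 = x % pr m 1 := by
      apply Nat.mod_mod_of_dvd
      unfold PP
      exact Dvd.dvd.mul_right (Dvd.intro_left _ rfl) _
    have q2 : x % PP m % pr m 2 = x % pr m 2 := by
      apply Nat.mod_mod_of_dvd
      unfold PP
      exact Dvd.intro_left _ rfl
    rw [← hleg 0 e0 (x % PP m), q0, hleg, ← hleg 1 e1 (x % PP m), q1, hleg,
      ← hleg 2 e2 (x % PP m), q2, hleg]

/-- counting one pattern in a slot -/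
theorem card_pat (hDIV : T_DIV) {n i : ℕ} (hv : Valid n i) (c : ℤ) (e0 e1 e2 : ℤ)
    (h0 : e0 = 1 ∨ e0 = -1) (h1 : e1 = 1 ∨ e1 = -1) (h2 : e2 = 1 ∨ e2 = -1) :
    ((Finset.Ico (NN (slot n i) : ℤ) (2 * NN (slot n i))).filter (fun z =>
      (4 : ℤ) ^ (Nat.size n + 1) ∣ z - c ∧ chi (lvl n i) 0 z = e0 ∧ chi (lvl n i) 1 z = e1 ∧
        chi (lvl n i) 2 z = e2)).card = cnt n i := by
  rw [card_shift (Q := fun z => (4 : ℤ) ^ (Nat.size n + 1) ∣ z - c ∧ chi (lvl n i) 0 z = e0 ∧
    chi (lvl n i) 1 z = e1 ∧ chi (lvl n i) 2 z = e2) (hDIV n i hv).1, ct_pat _ _ _ _ _ _ h0 h1 h2]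
  · rfl
  · intro z
    have q0 : ∀ j, pr (lvl n i) j ∣ PP (lvl n i) →
        chi (lvl n i) j (z + (4 ^ (Nat.size n + 1) * PP (lvl n i) : ℕ)) = chi (lvl n i) j z := by
      intro j hj
      obtain ⟨k, hk⟩ := hj
      have : ((4 ^ (Nat.size n + 1) * PP (lvl n i) : ℕ) : ℤ) =
          (pr (lvl n i) j : ℤ) * (4 ^ (Nat.size n + 1) * k) := by
        rw [hk]; push_cast; ring
      unfold chi
      rw [this, leg_add]
    have d0 : pr (lvl n i) 0 ∣ PP (lvl n i) := by
      unfold PP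
      exact Dvd.dvd.mul_right (Dvd.intro _ rfl) _
    have d1 : pr (lvl n i) 1 ∣ PP (lvl n i) := by
      unfold PP
      exact Dvd.dvd.mul_right (Dvd.intro_left _ rfl) _
    have d2 : pr (lvl n i) 2 ∣ PP (lvl n i) := by
      unfold PP
      exact Dvd.intro_left _ rfl
    rw [q0 0 d0, q0 1 d1, q0 2 d2]
    have h3 : (4 : ℤ) ^ (Nat.size n + 1) ∣ ((4 ^ (Nat.size n + 1) * PP (lvl n i) : ℕ) : ℤ) := by
      push_cast
      exact Dvd.intro _ rfl
    have h4 : (4 : ℤ) ^ (Nat.size n + 1) ∣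
        z + ((4 ^ (Nat.size n + 1) * PP (lvl n i) : ℕ) : ℤ) - c ↔
        (4 : ℤ) ^ (Nat.size n + 1) ∣ z - c := by
      rw [show z + ((4 ^ (Nat.size n + 1) * PP (lvl n i) : ℕ) : ℤ) - c =
        (z - c) + ((4 ^ (Nat.size n + 1) * PP (lvl n i) : ℕ) : ℤ) by ring]
      exact Int.dvd_add_left h3
    rw [h4]

theorem cntm (hDIV : T_DIV) : T_CNT := by
  classical
  intro n i hv s hs
  set m := lvl n i with hm
  set a := lg i with ha
  -- the residue class
  obtain ⟨c, hc⟩ : ∃ c : ℤ, ∀ z, inP n i z ↔ (4 : ℤ) ^ (Nat.size n + 1) ∣ z - c := by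
    by_cases h : i = 2 ^ lg i
    · refine ⟨cc n + 4 ^ Nat.size n, fun z => ?_⟩
      unfold inP inh
      rw [show z - (cc n + 4 ^ Nat.size n) = z - cc n - 4 ^ Nat.size n by ring]
      tauto
    · refine ⟨cc n + 3 * 4 ^ Nat.size n, fun z => ?_⟩
      unfold inP ing
      rw [show z - (cc n + 3 * 4 ^ Nat.size n) = z - cc n - 3 * 4 ^ Nat.size n by ring]
      tauto
  have hsg : ((-1 : ℤ) ^ a = 1 ∨ (-1 : ℤ) ^ a = -1) := neg_one_pow_eq_or ℤ a
  have hcase : ∀ j z, chi m j z = 0 ∨ chi m j z = 1 ∨ chi m j z = -1 := fun j z => leg_cases _ z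
  have hpat := fun e0 e1 e2 h0 h1 h2 => card_pat hDIV hv c e0 e1 e2 h0 h1 h2
  rw [← hm] at hpat
  have hsm : ∀ (e : ℤ), (e = 1 ∨ e = -1) → ((-1) ^ a * e = 1 ∨ (-1) ^ a * e = -1) := by
    intro e he
    rcases hsg with h | h <;> rcases he with h' | h' <;> rw [h, h'] <;> norm_num
  have hinv : ∀ e x : ℤ, (-1) ^ a * x = e ↔ x = (-1) ^ a * e := by
    intro e x
    rcases hsg with h | h <;> rw [h] <;> constructor <;> intro h' <;> linarith
  have hne : ∀ e : ℤ, (e = 1 ∨ e = -1) → e ≠ 0 := by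
    rintro e (rfl | rfl) <;> norm_num
  have hReg : ∀ z, Reg n i z ↔ (NN (slot n i) : ℤ) ≤ z ∧ z < 2 * NN (slot n i) ∧
      (4 : ℤ) ^ (Nat.size n + 1) ∣ z - c ∧ chi m 0 z ≠ 0 ∧ chi m 1 z ≠ 0 ∧ chi m 2 z ≠ 0 := by
    intro z
    unfold Reg
    rw [hc z]
    tauto
  have hbase : ∀ (P : ℤ → Prop) [DecidablePred P] (e0 e1 e2 : ℤ), (e0 = 1 ∨ e0 = -1) → (e1 = 1 ∨ e1 = -1) →
      (e2 = 1 ∨ e2 = -1) →
      (∀ z, Reg n i z → (P z ↔ chi m 0 z = e0 ∧ chi m 1 z = e1 ∧ chi m 2 z = e2)) →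
      ((RS n i).filter P).card = cnt n i := by
    intro P _ e0 e1 e2 h0 h1 h2 hP
    rw [← hpat e0 e1 e2 h0 h1 h2]
    congr 1
    ext z
    simp only [RS, Finset.mem_filter, Finset.mem_Ico]
    constructor
    · rintro ⟨⟨h3, h4⟩, h5⟩
      have h6 := (hReg z).mp h4
      exact ⟨h3, h6.2.2.1, (hP z h4).mp h5⟩
    · rintro ⟨h3, h4, h5⟩
      have h6 : Reg n i z := (hReg z).mpr ⟨h3.1, h3.2, h4, by rw [h5.1]; exact hne _ h0,
        by rw [h5.2.1]; exact hne _ h1, by rw [h5.2.2]; exact hne _ h2⟩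
      exact ⟨⟨h3, h6⟩, (hP z h6).mpr h5⟩
  have hs' : -s = 1 ∨ -s = -1 := by
    rcases hs with rfl | rfl <;> norm_num
  refine ⟨?_, ?_, ?_⟩
  · unfold FA
    apply hbase _ s s ((-1) ^ a * s) hs hs (hsm s hs)
    intro z _
    unfold s1 s2 s3
    rw [← hm, ← ha, hinv]
  · unfold FS
    apply hbase _ s s ((-1) ^ a * (-s)) hs hs (hsm _ hs')
    intro z _
    unfold s1 s2 s3
    rw [← hm, ← ha, hinv]
  · have h1 : (FD n i s) = (RS n i).filter (fun z => s1 n i z = 1 ∧ s2 n i z = -1 ∧ s3 n i z = s) ∪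
        (RS n i).filter (fun z => s1 n i z = -1 ∧ s2 n i z = 1 ∧ s3 n i z = s) := by
      unfold FD
      rw [← Finset.filter_or]
      apply Finset.filter_congr
      intro z hz
      simp only [RS, Finset.mem_filter] at hz
      have h2 := (hReg z).mp hz.2
      unfold s1 s2
      rw [← hm]
      rcases hcase 0 z with h3 | h3 | h3
      · exact absurd h3 h2.2.2.2.1
      all_goals
        rcases hcase 1 z with h4 | h4 | h4
        · exact absurd h4 h2.2.2.2.2.1
        all_goals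
          rw [h3, h4]
          norm_num
    rw [h1, Finset.card_union_of_disjoint, hbase _ 1 (-1) ((-1) ^ a * s) (by norm_num)
      (by norm_num) (hsm s hs), hbase _ (-1) 1 ((-1) ^ a * s) (by norm_num)
      (by norm_num) (hsm s hs)]
    · ring
    · intro z _
      unfold s1 s2 s3
      rw [← hm, ← ha, hinv]
    · intro z _
      unfold s1 s2 s3
      rw [← hm, ← ha, hinv]
    · rw [Finset.disjoint_filter]
      rintro z _ ⟨h2, _⟩ ⟨h3, _⟩
      rw [h2] at h3
      norm_num at h3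

end Pool.Agent.H29.SC
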