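import Pool.Agent.H29.SC.ALT

/-!
# Roots of unity and expansions (helper29): modules ROO, EAP, FAP, EML, ECH of MP_de9001_an
-/

open Filter Topology

namespace Pool.Agent.H29.SC

open Pool.Agent.H85.SC Pool.Agent.H87.Synth

theorem ze_prim {q : ℕ} (hq : 0 < q) : IsPrimitiveRoot (ze q) q :=
  Complex.isPrimitiveRoot_exp q hq.ne'

theorem ze_ne_zero (q : ℕ) : ze q ≠ 0 := ne_zero_of_norm (ze_norm q)

/-- orthogonality -/
theorem orth {q : ℕ} (hq : 0 < q) (t : ℤ) :
    ∑ k ∈ Finset.range q, ze q ^ ((k : ℤ) * t) = if (q : ℤ) ∣ t then (q : ℂ) else 0 := by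
  have h1 : ∀ k : ℕ, ze q ^ ((k : ℤ) * t) = (ze q ^ t) ^ k := by
    intro k
    rw [mul_comm, zpow_mul, zpow_natCast]
  simp_rw [h1]
  split_ifs with h
  · have h2 : ze q ^ t = 1 := ((ze_prim hq).zpow_eq_one_iff_dvd t).mpr h
    simp [h2]
  · have h2 : ze q ^ t ≠ 1 := fun h3 => h (((ze_prim hq).zpow_eq_one_iff_dvd t).mp h3)
    rw [geom_sum_eq h2]
    have h3 : (ze q ^ t) ^ q = 1 := by
      rw [← zpow_natCast, ← zpow_mul, mul_comm, zpow_mul, zpow_natCast, ze_pow_self hq, one_zpow]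
    rw [h3, sub_self, zero_div]

theorem eap : T_EAP := by
  intro q c hq
  have hqc : (q : ℂ) ≠ 0 := by exact_mod_cast hq.ne'
  refine ⟨fun k => (1 / q) * ze q ^ (-((k : ℤ) * c)), ?_, ?_⟩
  · intro k
    rw [norm_mul, norm_zpow, ze_norm, one_zpow, mul_one, norm_div, norm_one, Complex.norm_natCast]
  · intro z
    have h1 : ∀ k : ℕ, (1 / q : ℂ) * ze q ^ (-((k : ℤ) * c)) * ze q ^ ((k : ℤ) * z) =
        (1 / q) * ze q ^ ((k : ℤ) * (z - c)) := by
      intro k
      rw [mul_assoc, ← zpow_add₀ (ze_ne_zero q)]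
      congr 2
      ring
    simp_rw [h1]
    rw [← Finset.mul_sum, orth hq]
    unfold ind
    split_ifs with h
    · field_simp
    · rw [mul_zero]

theorem root_gap {D : ℕ} {η : ℂ} (hη : ‖η‖ = 1) (hD : η ^ D = 1) (h1 : η ≠ 1) (hD0 : 0 < D) :
    2 / (D : ℝ) ≤ ‖η - 1‖ := by
  have hD' : (0 : ℝ) < D := by exact_mod_cast hD0
  have h2 : ∑ j ∈ Finset.range D, η ^ j = 0 := by
    rw [geom_sum_eq h1, hD, sub_self, zero_div]
  have h3 : (D : ℝ) ≤ (D * (D - 1) / 2) * ‖η - 1‖ := by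
    calc (D : ℝ) = ‖∑ j ∈ Finset.range D, (η ^ j - 1)‖ := by
          rw [Finset.sum_sub_distrib, h2]
          simp
      _ ≤ ∑ j ∈ Finset.range D, ‖η ^ j - 1‖ := norm_sum_le _ _
      _ ≤ ∑ j ∈ Finset.range D, (j : ℝ) * ‖η - 1‖ :=
          Finset.sum_le_sum (fun j _ => norm_pow_sub_one hη j)
      _ = (∑ j ∈ Finset.range D, (j : ℝ)) * ‖η - 1‖ := by rw [Finset.sum_mul]
      _ = (D * (D - 1) / 2) * ‖η - 1‖ := by
          congr 1
          have := Finset.sum_range_id_mul_two D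
          have h5 : 1 ≤ D := hD0
          have h4 := congrArg (Nat.cast : ℕ → ℝ) this
          push_cast [Nat.cast_sub h5] at h4
          linarith
  rw [div_le_iff₀ hD']
  have h6 : 0 ≤ ‖η - 1‖ := norm_nonneg _
  by_contra hcon
  push Not at hcon
  have h7 : (D : ℝ) * (D - 1) / 2 * ‖η - 1‖ ≤ D / 2 * (‖η - 1‖ * D) := by nlinarith
  nlinarith

theorem ze_gap {D : ℕ} (hD : 0 < D) {w : ℂ} (hw : ‖w‖ = 1) {k k' : ℕ} (hk : k < D) (hk' : k' < D)
    (hne : k ≠ k') (h1 : ‖w * ze D ^ k - 1‖ < 1 / D) : 1 / D ≤ ‖w * ze D ^ k' - 1‖ := by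
  -- the general statement for k < k'
  have key : ∀ a b : ℕ, a < b → b < D → 2 / (D : ℝ) ≤ ‖w * ze D ^ b - w * ze D ^ a‖ := by
    intro a b hab hb
    obtain ⟨c, rfl⟩ : ∃ c, b = a + c := ⟨b - a, by omega⟩
    have h2 : w * ze D ^ (a + c) - w * ze D ^ a = (w * ze D ^ a) * (ze D ^ c - 1) := by ring
    rw [h2, norm_mul, norm_mul, norm_pow, ze_norm, hw, one_pow, mul_one, one_mul]
    apply root_gap (by rw [norm_pow, ze_norm, one_pow]) _ _ hD
    · rw [← pow_mul, mul_comm, pow_mul, ze_pow_self hD, one_pow]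
    · exact (ze_prim hD).pow_ne_one_of_pos_of_lt (by omega) (by omega)
  have h3 : 2 / (D : ℝ) ≤ ‖w * ze D ^ k' - w * ze D ^ k‖ := by
    rcases lt_or_gt_of_ne hne with h | h
    · exact key k k' h hk'
    · rw [norm_sub_rev]
      exact key k' k h hk
  have h4 : ‖w * ze D ^ k' - w * ze D ^ k‖ ≤ ‖w * ze D ^ k' - 1‖ + ‖w * ze D ^ k - 1‖ := by
    have : w * ze D ^ k' - w * ze D ^ k = (w * ze D ^ k' - 1) - (w * ze D ^ k - 1) := by ring
    rw [this]
    exact norm_sub_le _ _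
  have h5 : 2 / (D : ℝ) = 1 / D + 1 / D := by ring
  linarith

theorem roo (hA : T_ALT) : T_ROO := by
  intro D hD N hN hDN w hw L
  have hD' : (0 : ℝ) < D := by exact_mod_cast hD
  have hN0 : (0 : ℝ) < N 0 := by exact_mod_cast (hN 0).1
  have hDN' : (D : ℝ) ^ 2 ≤ N 0 := by exact_mod_cast hDN
  set f : ℕ → ℝ := fun k => ‖∑ a ∈ Finset.range L, (-1) ^ a * av (N a) (fun _ => 1) (w * ze D ^ k)‖
    with hf
  have hnorm : ∀ k, ‖w * ze D ^ k‖ = 1 := fun k => norm_mul_ze hw D k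
  have hbig : ∀ k, 1 / (D : ℝ) ≤ ‖w * ze D ^ k - 1‖ → f k ≤ 3 / D := by
    intro k hk
    have hne : w * ze D ^ k ≠ 1 := by
      intro h
      rw [h, sub_self, norm_zero] at hk
      have : 0 < 1 / (D : ℝ) := by positivity
      linarith
    refine ((hA N hN _ (hnorm k) L).2 hne).trans ?_
    have h1 : (D : ℝ) ≤ N 0 * ‖w * ze D ^ k - 1‖ := by
      calc (D : ℝ) = D ^ 2 * (1 / D) := by field_simp
        _ ≤ N 0 * ‖w * ze D ^ k - 1‖ := by gcongr
    gcongr
  by_cases hex : ∃ k0 ∈ Finset.range D, ‖w * ze D ^ k0 - 1‖ < 1 / D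
  · obtain ⟨k0, hk0, hlt⟩ := hex
    rw [← Finset.add_sum_erase _ _ hk0]
    have h1 : f k0 ≤ 6 := (hA N hN _ (hnorm k0) L).1
    have h2 : ∑ k ∈ (Finset.range D).erase k0, f k ≤ ∑ _k ∈ (Finset.range D).erase k0, 3 / (D : ℝ) := by
      apply Finset.sum_le_sum
      intro k hk
      rw [Finset.mem_erase] at hk
      exact hbig k (ze_gap hD hw (Finset.mem_range.mp hk0) (Finset.mem_range.mp hk.2)
        (Ne.symm hk.1) hlt)
    have h3 : ∑ _k ∈ (Finset.range D).erase k0, 3 / (D : ℝ) ≤ 3 := by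
      rw [Finset.sum_const, nsmul_eq_mul]
      have h4 : (((Finset.range D).erase k0).card : ℝ) ≤ D := by
        exact_mod_cast (Finset.card_erase_le.trans (Finset.card_range D).le)
      calc (((Finset.range D).erase k0).card : ℝ) * (3 / D) ≤ D * (3 / D) := by gcongr
        _ = 3 := by field_simp
    linarith
  · push Not at hex
    calc ∑ k ∈ Finset.range D, f k ≤ ∑ _k ∈ Finset.range D, 3 / (D : ℝ) :=
          Finset.sum_le_sum (fun k hk => hbig k (hex k hk))
      _ = 3 := by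
          rw [Finset.sum_const, nsmul_eq_mul, Finset.card_range]
          field_simp
      _ ≤ 9 := by norm_num

theorem fap (hR : T_ROO) : T_FAP := by
  intro D κ h hD hE N hN hDN w hw L
  obtain ⟨a, ha, hz⟩ := hE
  have hw0 := ne_zero_of_norm hw
  have h1 : ∀ M : ℕ, av M h w = ∑ k ∈ Finset.range D, a k * av M (fun _ => 1) (w * ze D ^ k) := by
    intro M
    unfold av
    simp_rw [hz, Finset.sum_mul]
    rw [Finset.sum_comm, Finset.mul_sum]
    apply Finset.sum_congr rfl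
    intro k _
    have h2 : ∀ z : ℤ, a k * ze D ^ ((k : ℤ) * z) * w ^ z = a k * (1 * (w * ze D ^ k) ^ z) := by
      intro z
      rw [mul_zpow, zpow_mul, zpow_natCast]
      ring
    simp_rw [h2]
    rw [← Finset.mul_sum]
    ring
  have h2 : ∑ b ∈ Finset.range L, (-1) ^ b * av (N b) h w = ∑ k ∈ Finset.range D, a k *
      ∑ b ∈ Finset.range L, (-1) ^ b * av (N b) (fun _ => 1) (w * ze D ^ k) := by
    simp_rw [h1, Finset.mul_sum]
    rw [Finset.sum_comm]
    apply Finset.sum_congr rfl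
    intro k _
    apply Finset.sum_congr rfl
    intro b _
    ring
  have hκ : 0 ≤ κ := (norm_nonneg _).trans (ha 0)
  rw [h2]
  calc ‖∑ k ∈ Finset.range D, a k *
        ∑ b ∈ Finset.range L, (-1) ^ b * av (N b) (fun _ => 1) (w * ze D ^ k)‖
      ≤ ∑ k ∈ Finset.range D, ‖a k *
        ∑ b ∈ Finset.range L, (-1) ^ b * av (N b) (fun _ => 1) (w * ze D ^ k)‖ := norm_sum_le _ _
    _ ≤ ∑ k ∈ Finset.range D, κ *
        ‖∑ b ∈ Finset.range L, (-1) ^ b * av (N b) (fun _ => 1) (w * ze D ^ k)‖ := by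
        apply Finset.sum_le_sum
        intro k _
        rw [norm_mul]
        exact mul_le_mul_of_nonneg_right (ha k) (norm_nonneg _)
    _ = κ * ∑ k ∈ Finset.range D,
        ‖∑ b ∈ Finset.range L, (-1) ^ b * av (N b) (fun _ => 1) (w * ze D ^ k)‖ := by
        rw [Finset.mul_sum]
    _ ≤ κ * 9 := mul_le_mul_of_nonneg_left (hR D hD N hN hDN w hw L) hκ
    _ = 9 * κ := mul_comm _ _

theorem eml : T_EML := by
  intro D D' κ κ' h h' hD hD' hco hE hE'
  obtain ⟨a, ha, hz⟩ := hE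
  obtain ⟨a', ha', hz'⟩ := hE'
  have hκ : 0 ≤ κ := (norm_nonneg _).trans (ha 0)
  have hκ' : 0 ≤ κ' := (norm_nonneg _).trans (ha' 0)
  have hDD : 0 < D * D' := Nat.mul_pos hD hD'
  set φ : ℕ × ℕ → ℕ := fun p => (p.1 * D' + p.2 * D) % (D * D') with hφ
  have hinj : ∀ p ∈ Finset.range D ×ˢ Finset.range D', ∀ p' ∈ Finset.range D ×ˢ Finset.range D',
      φ p = φ p' → p = p' := by
    rintro ⟨k, l⟩ hp ⟨k', l'⟩ hp' he
    rw [Finset.mem_product, Finset.mem_range, Finset.mem_range] at hp hp'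
    simp only at hp hp'
    have h1 : k * D' + l * D ≡ k' * D' + l' * D [MOD D * D'] := he
    have h2 : k * D' ≡ k' * D' [MOD D] := by
      have h3 := h1.of_mul_right D'
      have h4 : ∀ x y : ℕ, x * D' + y * D ≡ x * D' [MOD D] := by
        intro x y
        have : y * D ≡ 0 [MOD D] := (Nat.modEq_zero_iff_dvd).mpr (Dvd.intro_left y rfl)
        simpa using (Nat.ModEq.refl (x * D')).add this
      exact ((h4 k l).symm.trans h3).trans (h4 k' l')
    have h3 : l * D ≡ l' * D [MOD D'] := by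
      have h3 := h1.of_mul_left D
      have h4 : ∀ x y : ℕ, x * D' + y * D ≡ y * D [MOD D'] := by
        intro x y
        have : x * D' ≡ 0 [MOD D'] := (Nat.modEq_zero_iff_dvd).mpr (Dvd.intro_left x rfl)
        simpa using this.add (Nat.ModEq.refl (y * D))
      exact ((h4 k l).symm.trans h3).trans (h4 k' l')
    have h4 : k ≡ k' [MOD D] := Nat.ModEq.cancel_right_of_coprime hco h2
    have h5 : l ≡ l' [MOD D'] := Nat.ModEq.cancel_right_of_coprime hco.symm h3
    have h6 : k = k' := by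
      rw [Nat.ModEq, Nat.mod_eq_of_lt hp.1, Nat.mod_eq_of_lt hp'.1] at h4
      exact h4
    have h7 : l = l' := by
      rw [Nat.ModEq, Nat.mod_eq_of_lt hp.2, Nat.mod_eq_of_lt hp'.2] at h5
      exact h5
    rw [h6, h7]
  classical
  refine ⟨fun j => ∑ p ∈ (Finset.range D ×ˢ Finset.range D').filter (fun p => φ p = j),
    a p.1 * a' p.2, ?_, ?_⟩
  · intro j
    have hcard : ((Finset.range D ×ˢ Finset.range D').filter (fun p => φ p = j)).card ≤ 1 := by
      rw [Finset.card_le_one]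
      intro p hp p' hp'
      rw [Finset.mem_filter] at hp hp'
      exact hinj p hp.1 p' hp'.1 (hp.2.trans hp'.2.symm)
    calc ‖∑ p ∈ (Finset.range D ×ˢ Finset.range D').filter (fun p => φ p = j), a p.1 * a' p.2‖
        ≤ ∑ p ∈ (Finset.range D ×ˢ Finset.range D').filter (fun p => φ p = j),
          ‖a p.1 * a' p.2‖ := norm_sum_le _ _
      _ ≤ ∑ _p ∈ (Finset.range D ×ˢ Finset.range D').filter (fun p => φ p = j), κ * κ' := by
          apply Finset.sum_le_sum
          intro p _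
          rw [norm_mul]
          exact mul_le_mul (ha _) (ha' _) (norm_nonneg _) hκ
      _ ≤ κ * κ' := by
          rw [Finset.sum_const, nsmul_eq_mul]
          have : (((Finset.range D ×ˢ Finset.range D').filter (fun p => φ p = j)).card : ℝ) ≤ 1 := by
            exact_mod_cast hcard
          have h0 : 0 ≤ κ * κ' := mul_nonneg hκ hκ'
          nlinarith
  · intro z
    simp only
    rw [hz z, hz' z]
    have h1 : ∀ j : ℕ, (∑ p ∈ (Finset.range D ×ˢ Finset.range D').filter (fun p => φ p = j),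
        a p.1 * a' p.2) * ze (D * D') ^ ((j : ℤ) * z) =
        ∑ p ∈ (Finset.range D ×ˢ Finset.range D').filter (fun p => φ p = j),
          (a p.1 * ze D ^ ((p.1 : ℤ) * z)) * (a' p.2 * ze D' ^ ((p.2 : ℤ) * z)) := by
      intro j
      rw [Finset.sum_mul]
      apply Finset.sum_congr rfl
      intro p hp
      rw [Finset.mem_filter] at hp
      rw [← hp.2]
      have h2 : ze (D * D') ^ ((φ p : ℤ) * z) =
          ze D ^ ((p.1 : ℤ) * z) * ze D' ^ ((p.2 : ℤ) * z) := by
        have h3 : ∀ m : ℕ, ze (D * D') ^ (m % (D * D')) = ze (D * D') ^ m := by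
          intro m
          conv_rhs => rw [← Nat.mod_add_div m (D * D'), pow_add, pow_mul, ze_pow_self hDD, one_pow,
            mul_one]
        rw [zpow_mul, zpow_natCast, hφ]
        simp only
        rw [h3, pow_add, mul_comm p.1 D', pow_mul, ze_mul_pow_right hD', mul_comm p.2 D, pow_mul,
          ze_mul_pow_left hD, mul_zpow, zpow_mul, zpow_mul, zpow_natCast, zpow_natCast]
      rw [h2]
      ring
    simp_rw [h1]
    rw [Finset.sum_fiberwise_of_maps_to, Finset.sum_product, Finset.sum_mul_sum]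
    intro p _
    exact Finset.mem_range.mpr (Nat.mod_lt _ hDD)

end Pool.Agent.H29.SC
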