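import Pool.Agent.H29.SC.ROO

/-!
# Expansion of the Legendre symbol (helper29): module ECH of MP_de9001_an
-/

open Filter Topology

namespace Pool.Agent.H29.SC

open Pool.Agent.H85.SC Pool.Agent.H87.Synth

/-- the quadratic character with complex values -/
noncomputable def qc (p : ℕ) [Fact p.Prime] : MulChar (ZMod p) ℂ :=
  (quadraticChar (ZMod p)).ringHomComp (Int.castRingHom ℂ)

theorem qc_apply (p : ℕ) [Fact p.Prime] (z : ℤ) : qc p (z : ZMod p) = (legendreSym p z : ℂ) := by
  unfold qc legendreSym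
  rw [MulChar.ringHomComp_apply]
  simp

theorem qc_ne_one {p : ℕ} [Fact p.Prime] (hp : p ≠ 2) : qc p ≠ 1 := by
  unfold qc
  rw [MulChar.ringHomComp_ne_one_iff (RingHom.injective_int _)]
  apply quadraticChar_ne_one
  rw [ZMod.ringChar_zmod_n]
  exact hp

theorem qc_quad (p : ℕ) [Fact p.Prime] : (qc p).IsQuadratic := by
  unfold qc
  exact (quadraticChar_isQuadratic (ZMod p)).comp _

theorem norm_qc_unit (p : ℕ) [Fact p.Prime] (u : (ZMod p)ˣ) : ‖qc p u‖ = 1 := by
  have h := qc_quad p (u : ZMod p)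
  have h0 : qc p (u : ZMod p) ≠ 0 := by
    have := (u.isUnit.map (qc p)).ne_zero
    exact this
  rcases h with h | h | h
  · exact absurd h h0
  · rw [h]; simp
  · rw [h]; simp

theorem norm_gauss {p : ℕ} [Fact p.Prime] (hp : p ≠ 2) :
    ‖gaussSum (qc p) (ZMod.stdAddChar (N := p))‖ = Real.sqrt p := by
  have h1 : gaussSum (qc p) (ZMod.stdAddChar (N := p)) ^ 2 =
      qc p (-1) * (Fintype.card (ZMod p) : ℂ) :=
    gaussSum_sq (qc_ne_one hp) (qc_quad p) (ZMod.isPrimitive_stdAddChar p)
  have h2 : ‖gaussSum (qc p) (ZMod.stdAddChar (N := p))‖ ^ 2 = p := by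
    rw [← norm_pow, h1, norm_mul]
    have h3 := norm_qc_unit p (-1)
    rw [Units.val_neg, Units.val_one] at h3
    rw [h3, one_mul, ZMod.card, Complex.norm_natCast]
  rw [← h2, Real.sqrt_sq (norm_nonneg _)]

theorem ze_std (p : ℕ) [NeZero p] (j : ℤ) : ze p ^ j = ZMod.stdAddChar (j : ZMod p) := by
  rw [ZMod.stdAddChar_coe]
  unfold ze
  rw [← Complex.exp_int_mul]
  congr 1
  ring

theorem ech_gen (p : ℕ) [Fact p.Prime] (hp2 : p ≠ 2) :
    Expn p (1 / Real.sqrt p) (fun z => (legendreSym p z : ℂ)) := by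
  have hp0 : 0 < p := (Fact.out : p.Prime).pos
  have hpc : (p : ℂ) ≠ 0 := by exact_mod_cast hp0.ne'
  have hpr : (0 : ℝ) < p := by exact_mod_cast hp0
  refine ⟨fun k => (1 / p) * ∑ t : ZMod p, qc p t * ze p ^ (-((k : ℤ) * (t.val : ℤ))), ?_, ?_⟩
  · intro k
    have h1 : ∑ t : ZMod p, qc p t * ze p ^ (-((k : ℤ) * (t.val : ℤ))) =
        ∑ t : ZMod p, qc p t * ZMod.stdAddChar (-(k : ZMod p) * t) := by
      apply Finset.sum_congr rfl
      intro t _
      rw [ze_std]
      congr 2
      push_cast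
      rw [ZMod.natCast_zmod_val]
      ring
    simp only
    rw [h1, norm_mul, norm_div, norm_one, Complex.norm_natCast]
    by_cases hk : (k : ZMod p) = 0
    · have h2 : ∑ t : ZMod p, qc p t * ZMod.stdAddChar (-(k : ZMod p) * t) = 0 := by
        rw [hk]
        simp only [neg_zero, zero_mul, AddChar.map_zero_eq_one, mul_one]
        exact MulChar.sum_eq_zero_of_ne_one (qc_ne_one hp2)
      rw [h2, norm_zero, mul_zero]
      positivity
    · have hu : -(k : ZMod p) ≠ 0 := neg_ne_zero.mpr hk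
      set u : (ZMod p)ˣ := Units.mk0 _ hu with hudef
      have h2 := gaussSum_mulShift (qc p) (ZMod.stdAddChar (N := p)) u
      have h3 : gaussSum (qc p) (AddChar.mulShift (ZMod.stdAddChar (N := p)) u) =
          ∑ t : ZMod p, qc p t * ZMod.stdAddChar (-(k : ZMod p) * t) := by
        unfold gaussSum
        simp only [AddChar.mulShift_apply]
        rfl
      have h4 : ‖∑ t : ZMod p, qc p t * ZMod.stdAddChar (-(k : ZMod p) * t)‖ = Real.sqrt p := by
        rw [← h3, ← norm_gauss hp2, ← h2, norm_mul, norm_qc_unit, one_mul]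
      rw [h4]
      apply le_of_eq
      have h5 : Real.sqrt p * Real.sqrt p = p := Real.mul_self_sqrt hpr.le
      have h6 : Real.sqrt p ≠ 0 := (Real.sqrt_pos.mpr hpr).ne'
      field_simp
      rw [pow_two, h5]
  · intro z
    simp only
    have h1 : ∀ k : ℕ, (1 / (p : ℂ)) * (∑ t : ZMod p, qc p t * ze p ^ (-((k : ℤ) * (t.val : ℤ)))) *
        ze p ^ ((k : ℤ) * z) =
        (1 / p) * ∑ t : ZMod p, qc p t * ze p ^ ((k : ℤ) * (z - (t.val : ℤ))) := by
      intro k
      rw [mul_assoc, Finset.sum_mul]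
      congr 1
      apply Finset.sum_congr rfl
      intro t _
      rw [mul_assoc, ← zpow_add₀ (ze_ne_zero p)]
      congr 2
      ring
    simp_rw [h1]
    rw [← Finset.mul_sum, Finset.sum_comm]
    simp_rw [← Finset.mul_sum, orth hp0]
    rw [Finset.sum_eq_single (z : ZMod p)]
    · rw [if_pos, qc_apply]
      · field_simp
      · rw [← ZMod.intCast_zmod_eq_zero_iff_dvd]
        push_cast
        rw [ZMod.natCast_zmod_val, sub_self]
    · intro t _ ht
      rw [if_neg, mul_zero]
      intro hcon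
      rw [← ZMod.intCast_zmod_eq_zero_iff_dvd] at hcon
      push_cast at hcon
      rw [ZMod.natCast_zmod_val] at hcon
      exact ht (sub_eq_zero.mp hcon).symm
    · intro h
      exact absurd (Finset.mem_univ _) h

theorem pr_ne_two (m j : ℕ) : pr m j ≠ 2 := by
  have h1 := pr_gt m j
  have h2 : 2 ^ 2 ≤ 2 ^ (m + 2 + j) := Nat.pow_le_pow_right (by norm_num) (by omega)
  omega

theorem ech : T_ECH := by
  intro m j
  exact ech_gen (pr m j) (pr_ne_two m j)

end Pool.Agent.H29.SC
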